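import Mathlib
import Pool.Agent.H27.G.R_seed8.H398R2.BA1

/-! From `BVTotal` to `BVAP`: orthogonality. -/

open Finset

namespace Pool.Agent.H398R2.BV

open Pool.Agent.Helper112 Pool.Agent.Helper112.BLB Pool.Agent.H410R2

theorem log_div_bounds (X : ℝ) (n : ℕ) (hX : 1 ≤ X) (hn : n ∈ Icc 1 ⌊X⌋₊) :
    0 ≤ Real.log (X / n) ∧ Real.log (X / n) ≤ Real.log X := by
  rw [mem_Icc] at hn
  have hn0 : (1:ℝ) ≤ n := by exact_mod_cast hn.1
  have hnX : (n:ℝ) ≤ X := (Nat.le_floor_iff (by linarith)).mp hn.2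
  constructor
  · apply Real.log_nonneg
    rwa [le_div_iff₀ (by linarith), one_mul]
  · apply Real.log_le_log (by positivity)
    exact div_le_self (by linarith) hn0

/-- bound for the sum over integers not coprime to `m` -/
theorem sum_nc (X : ℝ) (hX : 1 ≤ X) (m : ℕ) (hm : 1 ≤ m) :
    ∑ n ∈ (Icc 1 ⌊X⌋₊).filter (fun n => ¬ n.Coprime m),
      ArithmeticFunction.vonMangoldt n * Real.log (X / n) ≤
      m.primeFactors.card * Real.log X ^ 2 := by
  have hL : 0 ≤ Real.log X := Real.log_nonneg hX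
  calc ∑ n ∈ (Icc 1 ⌊X⌋₊).filter (fun n => ¬ n.Coprime m),
      ArithmeticFunction.vonMangoldt n * Real.log (X / n) ≤
      ∑ n ∈ (Icc 1 ⌊X⌋₊).filter (fun n => ¬ n.Coprime m),
      ArithmeticFunction.vonMangoldt n * Real.log X := by
        apply sum_le_sum
        intro n hn
        rw [mem_filter] at hn
        exact mul_le_mul_of_nonneg_left (log_div_bounds X n hX hn.1).2
          ArithmeticFunction.vonMangoldt_nonneg
    _ = (∑ n ∈ (Icc 1 ⌊X⌋₊).filter (fun n => ¬ n.Coprime m),
      ArithmeticFunction.vonMangoldt n) * Real.log X := by rw [sum_mul]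
    _ ≤ (m.primeFactors.card * Real.log ⌊X⌋₊) * Real.log X :=
        mul_le_mul_of_nonneg_right (sum_not_coprime _ m hm) hL
    _ ≤ (m.primeFactors.card * Real.log X) * Real.log X := by
        apply mul_le_mul_of_nonneg_right _ hL
        apply mul_le_mul_of_nonneg_left _ (by positivity)
        exact log_natCast_le _ X hX (Nat.floor_le (by linarith))
    _ = _ := by ring

open Classical in
theorem psiLogAP_char (X : ℝ) (m a : ℕ) [NeZero m] (ha : a.Coprime m) :
    |psiLogAP X m a - (1 / (Nat.totient m : ℝ)) *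
      ∑ n ∈ (Icc 1 ⌊X⌋₊).filter (fun n => n.Coprime m),
        ArithmeticFunction.vonMangoldt n * Real.log (X / n)| ≤
    (1 / (Nat.totient m : ℝ)) *
      ∑ χ ∈ (univ : Finset (DirichletCharacter ℂ m)).filter (fun χ => χ ≠ 1),
        ‖TL X m χ (fun n => ArithmeticFunction.vonMangoldt n)‖ := by
  have key : ((psiLogAP X m a - (1 / (Nat.totient m : ℝ)) *
      ∑ n ∈ (Icc 1 ⌊X⌋₊).filter (fun n => n.Coprime m),
        ArithmeticFunction.vonMangoldt n * Real.log (X / n) : ℝ) : ℂ) =
      (1 / (Nat.totient m : ℂ)) *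
      ∑ χ ∈ (univ : Finset (DirichletCharacter ℂ m)).filter (fun χ => χ ≠ 1),
        χ ((a : ZMod m)⁻¹) * TL X m χ (fun n => ArithmeticFunction.vonMangoldt n) := by
    have h1 : psiLogAP X m a - (1 / (Nat.totient m : ℝ)) *
        ∑ n ∈ (Icc 1 ⌊X⌋₊).filter (fun n => n.Coprime m),
          ArithmeticFunction.vonMangoldt n * Real.log (X / n) =
        ∑ n ∈ Icc 1 ⌊X⌋₊, ArithmeticFunction.vonMangoldt n * Real.log (X / n) *
          ((if n ≡ a [MOD m] then (1 : ℝ) else 0) -
            (if n.Coprime m then (1 : ℝ) / (Nat.totient m : ℝ) else 0)) := by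
      unfold psiLogAP
      rw [sum_filter, sum_filter, mul_sum, ← sum_sub_distrib]
      apply sum_congr rfl
      intro n _
      split_ifs <;> ring
    rw [h1, Complex.ofReal_sum, mul_sum]
    have h2 : ∀ n ∈ Icc 1 ⌊X⌋₊, ((ArithmeticFunction.vonMangoldt n * Real.log (X / n) *
          ((if n ≡ a [MOD m] then (1 : ℝ) else 0) -
            (if n.Coprime m then (1 : ℝ) / (Nat.totient m : ℝ) else 0)) : ℝ) : ℂ) =
        ∑ χ ∈ (univ : Finset (DirichletCharacter ℂ m)).filter (fun χ => χ ≠ 1),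
          (1 / (Nat.totient m : ℂ)) * (χ ((a : ZMod m)⁻¹) *
            (((ArithmeticFunction.vonMangoldt n : ℝ) : ℂ) * χ (n : ZMod m) *
              ((Real.log (X / n) : ℝ) : ℂ))) := by
      intro n _
      rw [Complex.ofReal_mul, bracket m a ha n, mul_sum, mul_sum]
      apply sum_congr rfl
      intro χ _
      push_cast
      ring
    rw [sum_congr rfl h2, sum_comm]
    apply sum_congr rfl
    intro χ _
    unfold TL
    rw [mul_sum, mul_sum]
  rw [← Real.norm_eq_abs, ← Complex.norm_real, key, norm_mul]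
  have h1 : ‖(1 / (Nat.totient m : ℂ))‖ = 1 / (Nat.totient m : ℝ) := by
    rw [norm_div, norm_one, Complex.norm_natCast]
  rw [h1]
  apply mul_le_mul_of_nonneg_left _ (by positivity)
  refine (norm_sum_le _ _).trans (sum_le_sum ?_)
  intro χ _
  rw [norm_mul]
  have : ‖χ ((a : ZMod m)⁻¹)‖ ≤ 1 := χ.norm_le_one _
  calc _ ≤ 1 * ‖TL X m χ (fun n => ArithmeticFunction.vonMangoldt n)‖ :=
        mul_le_mul_of_nonneg_right this (norm_nonneg _)
    _ = _ := one_mul _

theorem TL_changeLevel (X : ℝ) (hX : 1 ≤ X) (m f : ℕ) (hm : 1 ≤ m) (h : f ∣ m)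
    (ψ : DirichletCharacter ℂ f) :
    ‖TL X m (DirichletCharacter.changeLevel h ψ) (fun n => ArithmeticFunction.vonMangoldt n)‖ ≤
      ‖psiLog X f ψ‖ + m.primeFactors.card * Real.log X ^ 2 := by
  have hf : NeZero m := ⟨by omega⟩
  have e : TL X m (DirichletCharacter.changeLevel h ψ)
      (fun n => ArithmeticFunction.vonMangoldt n) = psiLog X f ψ -
      ∑ n ∈ (Icc 1 ⌊X⌋₊).filter (fun n => ¬ n.Coprime m),
        ((ArithmeticFunction.vonMangoldt n : ℝ) : ℂ) * ψ (n : ZMod f) *
          ((Real.log (X / n) : ℝ) : ℂ) := by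
    unfold TL psiLog
    rw [sum_filter, ← sum_sub_distrib]
    apply sum_congr rfl
    intro n _
    by_cases hn : n.Coprime m
    · have h1 := DirichletCharacter.changeLevel_eq_cast_of_dvd' ψ h (a := (n : ℤ))
        (by exact_mod_cast Nat.isCoprime_iff_coprime.mpr hn)
      push_cast at h1
      rw [h1, if_neg (not_not.mpr hn), sub_zero]
    · rw [MulChar.map_nonunit _ (fun hu => hn ((ZMod.isUnit_iff_coprime n _).mp hu)), if_pos hn]
      ring
  rw [e]
  refine (norm_sub_le _ _).trans ?_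
  apply add_le_add_right
  refine (norm_sum_le _ _).trans ?_
  refine le_trans ?_ (sum_nc X hX m hm)
  apply sum_le_sum
  intro n hn
  rw [mem_filter] at hn
  have h1 := log_div_bounds X n hX hn.1
  have h2 := ψ.norm_le_one (n : ZMod f)
  have h3 : 0 ≤ ArithmeticFunction.vonMangoldt n := ArithmeticFunction.vonMangoldt_nonneg
  rw [norm_mul, norm_mul, Complex.norm_real, Complex.norm_real, Real.norm_eq_abs,
    Real.norm_eq_abs, abs_of_nonneg h3, abs_of_nonneg h1.1]
  calc ArithmeticFunction.vonMangoldt n * ‖ψ (n : ZMod f)‖ * Real.log (X / n) ≤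
      ArithmeticFunction.vonMangoldt n * 1 * Real.log (X / n) := by
        gcongr
        exact h1.1
    _ = _ := by ring

/-- the discrepancy for one modulus -/
theorem disc_le (X : ℝ) (hX : 1 ≤ X) (m a : ℕ) (hm : 1 ≤ m) (ha : a.Coprime m) :
    |psiLogAP X m a - psiLog1 X / (Nat.totient m : ℝ)| ≤
      (1 / (Nat.totient m : ℝ)) * (∑ f ∈ m.divisors.filter (fun f => f ≠ 1),
        ∑ ψ ∈ Prim f, ‖psiLog X f ψ‖) + 2 * (m.primeFactors.card * Real.log X ^ 2) := by
  classical
  have : NeZero m := ⟨by omega⟩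
  set E := (m.primeFactors.card : ℝ) * Real.log X ^ 2 with hE
  have hE0 : 0 ≤ E := by positivity
  have hφ : (1:ℝ) ≤ Nat.totient m := by exact_mod_cast Nat.totient_pos.mpr (by omega)
  have h1 := psiLogAP_char X m a ha
  -- characters
  have h2 := step2 m (fun χ => max (‖TL X m χ (fun n => ArithmeticFunction.vonMangoldt n)‖ - E) 0)
    (fun χ => le_max_right _ _) (fun f ψ => ‖psiLog X f ψ‖) (by
      intro f h ψ
      apply max_le _ (norm_nonneg _)
      have := TL_changeLevel X hX m f hm h ψ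
      linarith)
  have h3 : ∑ χ ∈ (univ : Finset (DirichletCharacter ℂ m)).filter (fun χ => χ ≠ 1),
        ‖TL X m χ (fun n => ArithmeticFunction.vonMangoldt n)‖ ≤
      (∑ f ∈ m.divisors.filter (fun f => f ≠ 1),
        ∑ ψ ∈ Prim f, ‖psiLog X f ψ‖) + Nat.totient m * E := by
    calc ∑ χ ∈ (univ : Finset (DirichletCharacter ℂ m)).filter (fun χ => χ ≠ 1),
        ‖TL X m χ (fun n => ArithmeticFunction.vonMangoldt n)‖ ≤
        ∑ χ ∈ (univ : Finset (DirichletCharacter ℂ m)).filter (fun χ => χ ≠ 1),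
          (max (‖TL X m χ (fun n => ArithmeticFunction.vonMangoldt n)‖ - E) 0 + E) := by
          apply sum_le_sum
          intro χ _
          have := le_max_left (‖TL X m χ (fun n => ArithmeticFunction.vonMangoldt n)‖ - E) 0
          linarith
      _ = ∑ χ ∈ (univ : Finset (DirichletCharacter ℂ m)).filter (fun χ => χ ≠ 1),
          max (‖TL X m χ (fun n => ArithmeticFunction.vonMangoldt n)‖ - E) 0 +
          (((univ : Finset (DirichletCharacter ℂ m)).filter (fun χ => χ ≠ 1)).card : ℝ) * E := by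
          rw [sum_add_distrib, sum_const, nsmul_eq_mul]
      _ ≤ _ := by
          apply add_le_add
          · exact h2
          · apply mul_le_mul_of_nonneg_right _ hE0
            have h4 := DirichletCharacter.card_eq_totient_of_hasEnoughRootsOfUnity ℂ m
            rw [← h4, Nat.card_eq_fintype_card]
            exact_mod_cast (card_filter_le _ _)
  -- principal character
  have h5 : psiLog1 X - ∑ n ∈ (Icc 1 ⌊X⌋₊).filter (fun n => n.Coprime m),
        ArithmeticFunction.vonMangoldt n * Real.log (X / n) =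
      ∑ n ∈ (Icc 1 ⌊X⌋₊).filter (fun n => ¬ n.Coprime m),
        ArithmeticFunction.vonMangoldt n * Real.log (X / n) := by
    unfold psiLog1
    rw [← sum_filter_add_sum_filter_not (Icc 1 ⌊X⌋₊) (fun n => n.Coprime m)]
    ring
  have h6 := sum_nc X hX m hm
  have h7 : 0 ≤ ∑ n ∈ (Icc 1 ⌊X⌋₊).filter (fun n => ¬ n.Coprime m),
        ArithmeticFunction.vonMangoldt n * Real.log (X / n) := by
    apply sum_nonneg
    intro n hn
    rw [mem_filter] at hn
    exact mul_nonneg ArithmeticFunction.vonMangoldt_nonneg (log_div_bounds X n hX hn.1).1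
  set P0 := ∑ n ∈ (Icc 1 ⌊X⌋₊).filter (fun n => n.Coprime m),
        ArithmeticFunction.vonMangoldt n * Real.log (X / n) with hP0
  have h8 : |(1 / (Nat.totient m : ℝ)) * P0 - psiLog1 X / (Nat.totient m : ℝ)| ≤ E := by
    have : (1 / (Nat.totient m : ℝ)) * P0 - psiLog1 X / (Nat.totient m : ℝ) =
        -((psiLog1 X - P0) / (Nat.totient m : ℝ)) := by ring
    rw [this, abs_neg, h5, abs_of_nonneg (by positivity)]
    rw [div_le_iff₀ (by linarith)]
    calc _ ≤ E := h6
      _ = E * 1 := by ring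
      _ ≤ E * (Nat.totient m : ℝ) := mul_le_mul_of_nonneg_left hφ hE0
  have h9 : (1 / (Nat.totient m : ℝ)) *
      ∑ χ ∈ (univ : Finset (DirichletCharacter ℂ m)).filter (fun χ => χ ≠ 1),
        ‖TL X m χ (fun n => ArithmeticFunction.vonMangoldt n)‖ ≤
      (1 / (Nat.totient m : ℝ)) * (∑ f ∈ m.divisors.filter (fun f => f ≠ 1),
        ∑ ψ ∈ Prim f, ‖psiLog X f ψ‖) + E := by
    calc _ ≤ (1 / (Nat.totient m : ℝ)) * ((∑ f ∈ m.divisors.filter (fun f => f ≠ 1),
        ∑ ψ ∈ Prim f, ‖psiLog X f ψ‖) + Nat.totient m * E) :=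
          mul_le_mul_of_nonneg_left h3 (by positivity)
      _ = _ := by
          have : (Nat.totient m : ℝ) ≠ 0 := by positivity
          field_simp
  calc |psiLogAP X m a - psiLog1 X / (Nat.totient m : ℝ)| =
      |(psiLogAP X m a - (1 / (Nat.totient m : ℝ)) * P0) +
        ((1 / (Nat.totient m : ℝ)) * P0 - psiLog1 X / (Nat.totient m : ℝ))| := by
        congr 1; ring
    _ ≤ |psiLogAP X m a - (1 / (Nat.totient m : ℝ)) * P0| +
        |(1 / (Nat.totient m : ℝ)) * P0 - psiLog1 X / (Nat.totient m : ℝ)| := abs_add_le _ _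
    _ ≤ _ := by linarith

end Pool.Agent.H398R2.BV
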